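import Pool.Agent.W907.SG.Stmts

/-! SG-SUSP: the suspension is small in all degrees. -/

set_option autoImplicit false

namespace Pool.Agent.W215.SG

open Pool.Agent.W907.SG Module

section Act

variable {V : Type} [DecidableEq V] (q : ℕ) (s t : V)

/-- the action on the cyclic group -/
def tau (v : V) (x : ZMod q) : ZMod q := if v = s then -x else if v = t then 1 - x else x

/-- flipping one coordinate -/
def flp (v : V) (f : V → Bool) : V → Bool := fun u => if u = v then !f u else f u

/-- the action -/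
def act (v : V) (z : ZMod q × (V → Bool)) : ZMod q × (V → Bool) := (tau q s t v z.1, flp v z.2)

theorem flp_flp (v : V) (f : V → Bool) : flp v (flp v f) = f := by
  funext u
  unfold flp
  by_cases h : u = v <;> simp [h]

theorem flp_comm (v w : V) (f : V → Bool) : flp v (flp w f) = flp w (flp v f) := by
  funext u
  unfold flp
  split_ifs <;> rfl

theorem tau_tau (v : V) (x : ZMod q) : tau q s t v (tau q s t v x) = x := by
  unfold tau
  split_ifs <;> ring

theorem act_act (v : V) (z : ZMod q × (V → Bool)) : act q s t v (act q s t v z) = z := by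
  unfold act
  simp only [tau_tau, flp_flp]

theorem tau_comm (G : SimpleGraph V) (hst : ¬ G.Adj s t) (u v : V) (huv : G.Adj u v)
    (x : ZMod q) : tau q s t u (tau q s t v x) = tau q s t v (tau q s t u x) := by
  have hne : u ≠ v := huv.ne
  unfold tau
  by_cases h1 : u = s
  · by_cases h2 : v = s
    · exact absurd (h1.trans h2.symm) hne
    · by_cases h3 : v = t
      · rw [h1, h3] at huv
        exact absurd huv hst
      · simp [h2, h3]
  · by_cases h2 : u = t
    · by_cases h3 : v = s
      · rw [h2, h3] at huv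
        exact absurd huv.symm hst
      · by_cases h4 : v = t
        · exact absurd (h2.trans h4.symm) hne
        · simp [h3, h4]
    · simp [h1, h2]

theorem foldr_fst (l : List V) : ∃ c : ZMod q, ∀ z, (l.foldr (act q s t) z).1 =
    ((((l.map fun v => if v = s ∨ v = t then (-1 : ℤˣ) else 1).prod : ℤˣ) : ℤ) : ZMod q) * z.1 +
      c := by
  induction l with
  | nil => exact ⟨0, fun z => by simp⟩
  | cons v l ih =>
    obtain ⟨c, hc⟩ := ih
    rw [List.map_cons, List.prod_cons]
    by_cases h1 : v = s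
    · refine ⟨-c, fun z => ?_⟩
      rw [List.foldr_cons]
      change tau q s t v (l.foldr (act q s t) z).1 = _
      rw [hc, tau, if_pos h1, if_pos (Or.inl h1)]
      push_cast
      ring
    · by_cases h2 : v = t
      · refine ⟨1 - c, fun z => ?_⟩
        rw [List.foldr_cons]
        change tau q s t v (l.foldr (act q s t) z).1 = _
        rw [hc, tau, if_neg h1, if_pos h2, if_pos (Or.inr h2)]
        push_cast
        ring
      · refine ⟨c, fun z => ?_⟩
        rw [List.foldr_cons]
        change tau q s t v (l.foldr (act q s t) z).1 = _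
        rw [hc, tau, if_neg h1, if_neg h2, if_neg (not_or.mpr ⟨h1, h2⟩), one_mul]

theorem foldr_snd (l : List V) (z : ZMod q × (V → Bool)) (u : V) :
    (l.foldr (act q s t) z).2 u =
      if (l.map fun v => if v = u then (-1 : ℤˣ) else 1).prod = 1 then z.2 u else !z.2 u := by
  induction l with
  | nil => simp
  | cons v l ih =>
    rw [List.foldr_cons, List.map_cons, List.prod_cons]
    change flp v (l.foldr (act q s t) z).2 u = _
    rw [flp, ih]
    rcases Int.units_eq_one_or ((l.map fun v => if v = u then (-1 : ℤˣ) else 1).prod) with h | h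
    · by_cases h1 : v = u
      · rw [if_pos h1.symm, if_pos h, if_pos h1, h]
        simp
      · rw [if_neg (Ne.symm h1), if_pos h, if_neg h1, h]
        simp
    · by_cases h1 : v = u
      · rw [if_pos h1.symm, h, if_pos h1]
        simp
      · rw [if_neg (Ne.symm h1), h, if_neg h1]
        simp

theorem foldr_even (l : List V) (hl : EvenWord l) : ∃ c : ZMod q, ∀ z,
    l.foldr (act q s t) z = (z.1 + c, z.2) := by
  obtain ⟨c, hc⟩ := foldr_fst q s t l
  refine ⟨c, fun z => ?_⟩
  apply Prod.ext
  · rw [hc z, hl]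
    simp
  · funext u
    rw [foldr_snd, hl, if_pos rfl]

theorem ptype (k : ℕ) (l : List V) (hl : EvenWord l) :
    ∃ k' : ℕ, ∀ z, (fun y => l.foldr (act (3 ^ k) s t) y)^[3 ^ k'] z = z := by
  obtain ⟨c, hc⟩ := foldr_even (3 ^ k) s t l hl
  refine ⟨k, ?_⟩
  have h1 : ∀ (n : ℕ) (z : ZMod (3 ^ k) × (V → Bool)),
      (fun y => l.foldr (act (3 ^ k) s t) y)^[n] z = (z.1 + n * c, z.2) := by
    intro n
    induction n with
    | zero => intro z; simp
    | succ n ih =>
      intro z
      rw [Function.iterate_succ_apply, hc, ih]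
      simp only
      push_cast
      apply Prod.ext
      · simp only
        ring
      · rfl
  intro z
  rw [h1]
  have h2 : ((3 ^ k : ℕ) : ZMod (3 ^ k)) = 0 := ZMod.natCast_self _
  rw [h2, zero_mul, add_zero]

theorem orb [NeZero q] (hst : s ≠ t) (P : ZMod q × (V → Bool) → Prop) (h0 : ∀ f, P (0, f))
    (hs : ∀ z, P z → P (act q s t s z)) (ht : ∀ z, P z → P (act q s t t z)) : ∀ z, P z := by
  have h1 : ∀ (n : ℕ) (f : V → Bool), P ((n : ZMod q), f) := by
    intro n
    induction n with
    | zero => intro f; simpa using h0 f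
    | succ n ih =>
      intro f
      have h2 := ht _ (hs _ (ih (flp s (flp t f))))
      have h3 : act q s t t (act q s t s ((n : ZMod q), flp s (flp t f))) =
          (((n + 1 : ℕ) : ZMod q), f) := by
        unfold act
        simp only [tau, if_true, flp_flp]
        rw [if_neg (Ne.symm hst)]
        push_cast
        rw [sub_neg_eq_add, add_comm]
      rwa [h3] at h2
  intro z
  have h2 := h1 z.1.val z.2
  rwa [ZMod.natCast_zmod_val] at h2

end Act

theorem sub_quot (hS : S_SUB) {V F M : Type} [Fintype V] [LinearOrder V] [Field F]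
    [AddCommGroup M] [Module F M] [FiniteDimensional F M] (G : SimpleGraph V)
    (ρ : V → M →ₗ[F] M) (h2 : (2 : F) ≠ 0) (hinv : ∀ v m, ρ v (ρ v m) = m)
    (hcomm : ∀ u v, G.Adj u v → ∀ m, ρ u (ρ v m) = ρ v (ρ u m)) (K : Submodule F M)
    (hK : ∀ v, ∀ m ∈ K, ρ v m ∈ K) (i : ℕ) :
    beta G ρ Set.univ ∅ i ≤ beta G (fun v => (ρ v).restrict (hK v)) Set.univ ∅ i +
      beta G (fun v => K.mapQ K (ρ v) (hK v)) Set.univ ∅ i := by
  apply hS V F K M (M ⧸ K) G (fun v => (ρ v).restrict (hK v)) ρ
    (fun v => K.mapQ K (ρ v) (hK v)) K.subtype K.mkQ h2 hinv hcomm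
  · intro v m
    rfl
  · intro v m
    rfl
  · exact Submodule.injective_subtype K
  · exact Submodule.mkQ_surjective K
  · rw [Submodule.range_subtype, Submodule.ker_mkQ]

theorem susp (hA : S_ACYC) (hS : S_SUB) (hD : S_DIM) : S_SUSP := by
  intro V _ G s t i hst hnadj hadj instF instL N
  obtain ⟨k, hk⟩ : ∃ k : ℕ, N * 2 ^ (Fintype.card V + 1) ≤ 3 ^ k := by
    refine ⟨N * 2 ^ (Fintype.card V + 1), ?_⟩
    exact (Nat.lt_pow_self (by norm_num)).le
  have : NeZero (3 ^ k) := ⟨by positivity⟩
  have : Fact (Nat.Prime 3) := ⟨Nat.prime_three⟩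
  have hcomm0 : ∀ u v, G.Adj u v → ∀ x, act (3 ^ k) s t u (act (3 ^ k) s t v x) =
      act (3 ^ k) s t v (act (3 ^ k) s t u x) := by
    intro u v huv x
    unfold act
    simp only
    rw [tau_comm (3 ^ k) s t G hnadj u v huv, flp_comm]
  refine ⟨ZMod (3 ^ k) × (V → Bool), inferInstance, ⟨(0, fun _ => false)⟩,
    ⟨act (3 ^ k) s t, act_act (3 ^ k) s t, hcomm0, fun v z => z.2 v, ?_, ?_, ?_⟩, ?_⟩
  · intro v z
    unfold act flp
    simp
  · intro u v huv z
    unfold act flp
    simp [huv]
  · intro l hl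
    exact ptype s t k l hl
  -- the estimate
  simp only
  set X := ZMod (3 ^ k) × (V → Bool) with hX
  set ρ : V → (X → ZMod 3) →ₗ[ZMod 3] (X → ZMod 3) := pull (ZMod 3) (act (3 ^ k) s t) with hρ
  have hρa : ∀ v m x, ρ v m x = m (act (3 ^ k) s t v x) := fun _ _ _ => rfl
  have h2 : (2 : ZMod 3) ≠ 0 := by
    intro h
    have h3 : ((2 : ℕ) : ZMod 3) = 0 := by exact_mod_cast h
    rw [ZMod.natCast_eq_zero_iff] at h3
    omega
  have hinv : ∀ v m, ρ v (ρ v m) = m := by
    intro v m
    funext x
    rw [hρa, hρa, act_act]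
  have hcomm : ∀ u v, G.Adj u v → ∀ m, ρ u (ρ v m) = ρ v (ρ u m) := by
    intro u v huv m
    funext x
    rw [hρa, hρa, hρa, hρa, hcomm0 u v huv]
  have hsu : ∀ u, u ≠ s → u ≠ t → ∀ m, ρ u (ρ s m) = ρ s (ρ u m) ∧ ρ u (ρ t m) = ρ t (ρ u m) :=
    fun u h1 h3 m => ⟨hcomm u s (hadj u h1 h3).1 m, hcomm u t (hadj u h1 h3).2 m⟩
  -- the submodule `N0`
  let N0 : Submodule (ZMod 3) (X → ZMod 3) :=
    LinearMap.ker (ρ s + LinearMap.id) ⊔ LinearMap.ker (ρ t + LinearMap.id)
  have hker : ∀ v m, m ∈ LinearMap.ker (ρ v + LinearMap.id) ↔ ρ v m = -m := by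
    intro v m
    rw [LinearMap.mem_ker, LinearMap.add_apply, LinearMap.id_apply]
    exact ⟨fun h => eq_neg_of_add_eq_zero_left h, fun h => by rw [h, neg_add_cancel]⟩
  have hN0 : ∀ m, m ∈ N0 ↔ ∃ x y, m = x + y ∧ ρ s x = -x ∧ ρ t y = -y := by
    intro m
    rw [Submodule.mem_sup]
    constructor
    · rintro ⟨x, hx, y, hy, rfl⟩
      exact ⟨x, y, rfl, (hker s x).mp hx, (hker t y).mp hy⟩
    · rintro ⟨x, y, rfl, hx, hy⟩
      exact ⟨x, (hker s x).mpr hx, y, (hker t y).mpr hy, rfl⟩
  have hN0inv : ∀ v, ∀ m ∈ N0, ρ v m ∈ N0 := by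
    intro v m hm
    obtain ⟨x, y, rfl, hx, hy⟩ := (hN0 m).mp hm
    by_cases h1 : v = s
    · rw [h1]
      rw [hN0]
      refine ⟨-x - (y - ρ s y), y, ?_, ?_, hy⟩
      · rw [map_add, hx]
        abel
      · rw [map_sub, map_neg, map_sub, hinv, hx]
        abel
    · by_cases h3 : v = t
      · rw [h3, hN0]
        refine ⟨x, -y - (x - ρ t x), ?_, hx, ?_⟩
        · rw [map_add, hy]
          abel
        · rw [map_sub, map_neg, map_sub, hinv, hy]
          abel
      · rw [hN0]
        refine ⟨ρ v x, ρ v y, map_add _ _ _, ?_, ?_⟩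
        · rw [← (hsu v h1 h3 x).1, hx, map_neg]
        · rw [← (hsu v h1 h3 y).2, hy, map_neg]
  -- first sequence
  have B1 := sub_quot hS G ρ h2 hinv hcomm N0 hN0inv i
  -- second sequence
  set σ : V → N0 →ₗ[ZMod 3] N0 := fun v => (ρ v).restrict (hN0inv v) with hσ
  have hσv : ∀ v (m : N0), ((σ v m : N0) : X → ZMod 3) = ρ v m := fun _ _ => rfl
  have hσinv : ∀ v m, σ v (σ v m) = m := fun v m => Subtype.ext (by rw [hσv, hσv, hinv])
  have hσcomm : ∀ u v, G.Adj u v → ∀ m, σ u (σ v m) = σ v (σ u m) := fun u v huv m =>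
    Subtype.ext (by rw [hσv, hσv, hσv, hσv, hcomm u v huv])
  let E : Submodule (ZMod 3) N0 :=
    LinearMap.ker (σ s + LinearMap.id) ⊓ LinearMap.ker (σ t + LinearMap.id)
  have hkerσ : ∀ v m, m ∈ LinearMap.ker (σ v + LinearMap.id) ↔ σ v m = -m := by
    intro v m
    rw [LinearMap.mem_ker, LinearMap.add_apply, LinearMap.id_apply]
    exact ⟨fun h => eq_neg_of_add_eq_zero_left h, fun h => by rw [h, neg_add_cancel]⟩
  have hE : ∀ m, m ∈ E ↔ σ s m = -m ∧ σ t m = -m := by
    intro m
    rw [Submodule.mem_inf, hkerσ, hkerσ]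
  have hEinv : ∀ v, ∀ m ∈ E, σ v m ∈ E := by
    intro v m hm
    obtain ⟨h3, h4⟩ := (hE m).mp hm
    by_cases h1 : v = s
    · rw [h1, h3]
      exact E.neg_mem hm
    · by_cases h5 : v = t
      · rw [h5, h4]
        exact E.neg_mem hm
      · rw [hE]
        have c1 := hσcomm v s (hadj v h1 h5).1 m
        have c2 := hσcomm v t (hadj v h1 h5).2 m
        exact ⟨by rw [← c1, h3, map_neg], by rw [← c2, h4, map_neg]⟩
  have B2 := sub_quot hS G σ h2 hσinv hσcomm E hEinv i
  -- the quotient is acyclic
  have B3 : beta G (fun v => E.mapQ E (σ v) (hEinv v)) Set.univ ∅ i = 0 := by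
    apply hA V (ZMod 3) (N0 ⧸ E) G (fun v => E.mapQ E (σ v) (hEinv v)) s t hst hnadj hadj
    · intro u v huv m
      obtain ⟨m, rfl⟩ := Submodule.mkQ_surjective E m
      simp only [Submodule.mkQ_apply, Submodule.mapQ_apply]
      rw [hσcomm u v huv]
    · intro m
      obtain ⟨m, rfl⟩ := Submodule.mkQ_surjective E m
      obtain ⟨x, y, hxy, hx, hy⟩ := (hN0 m).mp m.2
      have hx0 : x ∈ N0 := (hN0 x).mpr ⟨x, 0, by simp, hx, by simp⟩
      have hy0 : y ∈ N0 := (hN0 y).mpr ⟨0, y, by simp, by simp, hy⟩
      refine ⟨E.mkQ ⟨x, hx0⟩, E.mkQ ⟨y, hy0⟩, ?_, ?_, ?_⟩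
      · rw [← map_add]
        congr 1
        exact Subtype.ext hxy
      · simp only [Submodule.mkQ_apply, Submodule.mapQ_apply]
        rw [← Submodule.Quotient.mk_neg]
        congr 1
        exact Subtype.ext hx
      · simp only [Submodule.mkQ_apply, Submodule.mapQ_apply]
        rw [← Submodule.Quotient.mk_neg]
        congr 1
        exact Subtype.ext hy
    · intro m
      obtain ⟨m, rfl⟩ := Submodule.mkQ_surjective E m
      simp only [Submodule.mkQ_apply, Submodule.mapQ_apply]
      intro h3 h4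
      have key : ∀ v, (v = s ∨ v = t) →
          (Submodule.Quotient.mk (σ v m) : N0 ⧸ E) = -Submodule.Quotient.mk m → σ v m = -m := by
        intro v hv h5
        have h6 : σ v m + m ∈ E := by
          rw [← Submodule.Quotient.mk_eq_zero, Submodule.Quotient.mk_add, h5, neg_add_cancel]
        have h7 : σ v (σ v m + m) = -(σ v m + m) := by
          rcases hv with rfl | rfl
          · exact ((hE _).mp h6).1
          · exact ((hE _).mp h6).2
        have h8 : σ v (σ v m + m) = σ v m + m := by
          rw [map_add, hσinv]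
          abel
        have h9 : (2 : ZMod 3) • (σ v m + m) = 0 := by
          rw [two_smul]
          nth_rewrite 1 [← h8]
          rw [h7, neg_add_cancel]
        have h10 := (smul_eq_zero.mp h9).resolve_left h2
        exact eq_neg_of_add_eq_zero_left h10
      rw [Submodule.Quotient.mk_eq_zero, hE]
      exact ⟨key s (Or.inl rfl) h3, key t (Or.inr rfl) h4⟩
  -- dimensions
  have D1 : finrank (ZMod 3) E ≤ 2 ^ Fintype.card V := by
    let R : E →ₗ[ZMod 3] ((V → Bool) → ZMod 3) :=
      { toFun := fun m f => ((m : N0) : X → ZMod 3) (0, f)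
        map_add' := fun _ _ => rfl
        map_smul' := fun _ _ => rfl }
    have hR : Function.Injective R := by
      rw [injective_iff_map_eq_zero]
      intro m hm
      obtain ⟨h3, h4⟩ := (hE (m : N0)).mp m.2
      have h3' : ∀ z, ((m : N0) : X → ZMod 3) (act (3 ^ k) s t s z) =
          -((m : N0) : X → ZMod 3) z := fun z => congrFun (congrArg Subtype.val h3) z
      have h4' : ∀ z, ((m : N0) : X → ZMod 3) (act (3 ^ k) s t t z) =
          -((m : N0) : X → ZMod 3) z := fun z => congrFun (congrArg Subtype.val h4) z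
      apply Subtype.ext
      apply Subtype.ext
      funext z
      refine orb (3 ^ k) s t hst (fun z => ((m : N0) : X → ZMod 3) z = 0) ?_ ?_ ?_ z
      · intro f
        exact congrFun hm f
      · intro z hz
        rw [h3', hz, neg_zero]
      · intro z hz
        rw [h4', hz, neg_zero]
    have h3 := LinearMap.finrank_le_finrank_of_injective hR
    rw [Module.finrank_fintype_fun_eq_card] at h3
    simpa using h3
  have D2 : finrank (ZMod 3) ((X → ZMod 3) ⧸ N0) ≤ 2 ^ Fintype.card V := by
    classical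
    let T : ((V → Bool) → ZMod 3) →ₗ[ZMod 3] (X → ZMod 3) :=
      { toFun := fun g z => if z.1 = 0 then g z.2 else 0
        map_add' := fun g g' => by
          funext z
          simp only [Pi.add_apply]
          split_ifs <;> simp
        map_smul' := fun c g => by
          funext z
          simp only [Pi.smul_apply, RingHom.id_apply]
          split_ifs <;> simp }
    have hTs : ∀ f, T (Pi.single f 1) = Pi.single (0, f) 1 := by
      intro f
      funext z
      change (if z.1 = 0 then (Pi.single f 1 : (V → Bool) → ZMod 3) z.2 else 0) = _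
      by_cases h3 : z = (0, f)
      · rw [h3]
        simp
      · rw [Pi.single_eq_of_ne h3]
        by_cases h4 : z.1 = 0
        · rw [if_pos h4]
          apply Pi.single_eq_of_ne
          intro h5
          exact h3 (Prod.ext h4 h5)
        · rw [if_neg h4]
    have hmk : ∀ v z, (v = s ∨ v = t) →
        N0.mkQ (Pi.single (act (3 ^ k) s t v z) 1) = N0.mkQ (Pi.single z 1) := by
      intro v z hv
      rw [Submodule.mkQ_apply, Submodule.mkQ_apply, Submodule.Quotient.eq]
      have h3 : ∀ z, ρ v (Pi.single z 1) = Pi.single (act (3 ^ k) s t v z) 1 := by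
        intro z
        funext x
        rw [hρa]
        by_cases h4 : x = act (3 ^ k) s t v z
        · rw [h4, act_act]
          simp
        · rw [Pi.single_eq_of_ne h4, Pi.single_eq_of_ne]
          intro h5
          apply h4
          rw [← h5, act_act]
      have h4 : ρ v ((Pi.single (act (3 ^ k) s t v z) 1 : X → ZMod 3) - Pi.single z 1) =
          -((Pi.single (act (3 ^ k) s t v z) 1 : X → ZMod 3) - Pi.single z 1) := by
        rw [map_sub, h3, h3, act_act]
        abel
      rcases hv with rfl | rfl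
      · exact (hN0 _).mpr ⟨_, 0, by rw [add_zero], h4, by simp⟩
      · exact (hN0 _).mpr ⟨0, _, by rw [zero_add], by simp, h4⟩
    have hP : ∀ z, N0.mkQ (Pi.single z 1) ∈ LinearMap.range (N0.mkQ ∘ₗ T) := by
      apply orb (3 ^ k) s t hst
      · intro f
        exact ⟨Pi.single f 1, by rw [LinearMap.comp_apply, hTs]⟩
      · intro z hz
        rw [hmk s z (Or.inl rfl)]
        exact hz
      · intro z hz
        rw [hmk t z (Or.inr rfl)]
        exact hz
    have hsurj : Function.Surjective (N0.mkQ ∘ₗ T) := by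
      rw [← LinearMap.range_eq_top, eq_top_iff]
      intro m _
      obtain ⟨g, rfl⟩ := Submodule.mkQ_surjective N0 m
      have h3 : g = ∑ z, g z • (Pi.single z 1 : X → ZMod 3) := by
        funext y
        rw [Finset.sum_apply, Finset.sum_eq_single y]
        · simp
        · intro b _ hb
          simp [Pi.single_eq_of_ne (Ne.symm hb)]
        · intro h
          exact absurd (Finset.mem_univ y) h
      rw [h3, map_sum]
      apply Submodule.sum_mem
      intro z _
      rw [map_smul]
      exact Submodule.smul_mem _ _ (hP z)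
    have h3 := LinearMap.finrank_le_finrank_of_surjective hsurj
    rw [Module.finrank_fintype_fun_eq_card] at h3
    simpa using h3
  have B4 := hD V (ZMod 3) E G (fun v => (σ v).restrict (hEinv v)) Set.univ ∅ i
  have B5 := hD V (ZMod 3) ((X → ZMod 3) ⧸ N0) G (fun v => N0.mapQ N0 (ρ v) (hN0inv v))
    Set.univ ∅ i
  have hb : beta G ρ Set.univ ∅ i ≤ 2 ^ (Fintype.card V + 1) * 2 ^ Fintype.card V := by
    have h3 : 2 ^ Fintype.card V * finrank (ZMod 3) E ≤
        2 ^ Fintype.card V * 2 ^ Fintype.card V := Nat.mul_le_mul_left _ D1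
    have h4 : 2 ^ Fintype.card V * finrank (ZMod 3) ((X → ZMod 3) ⧸ N0) ≤
        2 ^ Fintype.card V * 2 ^ Fintype.card V := Nat.mul_le_mul_left _ D2
    have h5 : 2 ^ (Fintype.card V + 1) * 2 ^ Fintype.card V =
        2 ^ Fintype.card V * 2 ^ Fintype.card V + 2 ^ Fintype.card V * 2 ^ Fintype.card V := by
      rw [pow_succ]
      ring
    omega
  have hcard : Fintype.card X = 3 ^ k * 2 ^ Fintype.card V := by
    change Fintype.card (ZMod (3 ^ k) × (V → Bool)) = _
    rw [Fintype.card_prod, ZMod.card]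
    simp
  rw [hcard]
  calc N * beta G ρ Set.univ ∅ i ≤ N * (2 ^ (Fintype.card V + 1) * 2 ^ Fintype.card V) :=
        Nat.mul_le_mul_left _ hb
    _ = N * 2 ^ (Fintype.card V + 1) * 2 ^ Fintype.card V := by ring
    _ ≤ _ := Nat.mul_le_mul_right _ hk

end Pool.Agent.W215.SG
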